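import Pool.Agent.Helper31.LQ.Goals

/-!
Packet LQ-GPAE (MP_6fb600_gt): almost all linear maps are in general position.
-/

open MeasureTheory Set
open scoped ENNReal Matrix

noncomputable section

namespace Pool.Agent.Helper9.LQ

open Pool.Agent.Helper31.LQ

variable {n d : ℕ}

theorem mat_one_apply (hCO : CO) (hdn : d < n) (Y : Fin n → Fin d → ℝ) (a : Fin d) :
    mat Y 1 a = Y ⟨a.val, a.isLt.trans hdn⟩ := by
  obtain ⟨-, -, -, -, -, -, h1, -, -, -, -, -, h2⟩ := hCO n d Y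
  rw [h2 1 a (by omega), ← h1]
  rfl

theorem ae_det (hCO : CO) (hM : MEAS) (hdn : d < n) :
    ∀ᵐ Y : Fin n → Fin d → ℝ, (mat Y 1).det ≠ 0 := by
  have hmeas : MeasurableSet {Y : Fin n → Fin d → ℝ | (mat Y 1).det ≠ 0} :=
    ((hM n d).1 1) (measurableSet_singleton (0 : ℝ)).compl
  let J : Fin n → Fin d → ℝ := fun l c => if l.val = c.val then 1 else 0
  let L : ℝ →ₗ[ℝ] (Fin n → Fin d → ℝ) := LinearMap.toSpanSingleton ℝ _ J
  refine ae_mem_of_ae_add_linearMap_mem L volume volume hmeas ?_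
  intro Y
  have hfin : {s : ℝ | (-(mat Y 1)).charpoly.IsRoot s}.Finite :=
    Polynomial.finite_setOfPred_isRoot (Matrix.charpoly_monic _).ne_zero
  filter_upwards [hfin.countable.ae_notMem volume] with s hs
  change (mat (Y + s • J) 1).det ≠ 0
  intro h0
  apply hs
  change (-(mat Y 1)).charpoly.eval s = 0
  rw [Matrix.eval_charpoly, ← h0]
  congr 1
  ext a c
  rw [mat_one_apply hCO hdn]
  rw [Matrix.sub_apply, Matrix.neg_apply, mat_one_apply hCO hdn]
  rw [Matrix.scalar_apply, Matrix.diagonal_apply]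
  change _ = Y ⟨a.val, _⟩ c + s * (if a.val = c.val then 1 else 0)
  by_cases h : a = c
  · subst h
    simp
    ring
  · have h' : a.val ≠ c.val := fun h1 => h (Fin.ext h1)
    simp [h, h']

theorem nu_ne_zero (hd : 1 ≤ d) (Y : Fin n → Fin d → ℝ) (h : (mat Y 1).det ≠ 0) :
    nu Y 1 ≠ 0 := by
  intro h0
  have h1 : (mat Y 1) *ᵥ nu Y 1 = fun _ => 1 := by
    unfold nu
    rw [Matrix.mulVec_mulVec, Matrix.mul_nonsing_inv _ (isUnit_iff_ne_zero.2 h),
      Matrix.one_mulVec]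
  rw [h0, Matrix.mulVec_zero] at h1
  have := congrFun h1 ⟨0, hd⟩
  simp at this

theorem ae_hyper (ν : Fin d → ℝ) (hν : ν ≠ 0) (a e : ℝ) (he : e ≠ 0) :
    ∀ᵐ x : Fin d → ℝ, a + e * ∑ c, ν c * x c ≠ 0 := by
  have hcont : Continuous fun x : Fin d → ℝ => a + e * ∑ c, ν c * x c := by fun_prop
  have hmeas : MeasurableSet {x : Fin d → ℝ | a + e * ∑ c, ν c * x c ≠ 0} :=
    hcont.measurable (measurableSet_singleton (0 : ℝ)).compl
  let L : ℝ →ₗ[ℝ] (Fin d → ℝ) := LinearMap.toSpanSingleton ℝ _ ν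
  refine ae_mem_of_ae_add_linearMap_mem L volume volume hmeas ?_
  intro x
  have hνν : ∑ c, ν c * ν c ≠ 0 := by
    intro h
    apply hν
    exact dotProduct_self_eq_zero.1 h
  set s0 : ℝ := -((a + e * ∑ c, ν c * x c) / (e * ∑ c, ν c * ν c)) with hs0
  filter_upwards [(Set.countable_singleton s0).ae_notMem volume] with s hs
  change a + e * ∑ c, ν c * (x c + s * ν c) ≠ 0
  intro h0
  apply hs
  rw [mem_singleton_iff, hs0]
  have h1 : ∑ c, ν c * (x c + s * ν c) = ∑ c, ν c * x c + s * ∑ c, ν c * ν c := by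
    rw [Finset.mul_sum, ← Finset.sum_add_distrib]
    refine Finset.sum_congr rfl fun c _ => ?_
    ring
  rw [h1] at h0
  have h2 : e * ∑ c, ν c * ν c ≠ 0 := mul_ne_zero he hνν
  rw [eq_neg_iff_add_eq_zero, ← mul_right_inj' h2, mul_add, mul_div_cancel₀ _ h2]
  linarith

theorem ae_kp (hCO : CO) (hM : MEAS) (hd : 1 ≤ d) (hdn : d < n) (o : Fin (n + 1))
    (l : Fin n) (hl : d ≤ l.val) (e : ℝ) (he : e ≠ 0)
    (hyo : ∀ (Y : Fin n → Fin d → ℝ) (x : Fin d → ℝ), yv (Y + Pi.single l x) o =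
      yv Y o + e • x) :
    ∀ᵐ Y : Fin n → Fin d → ℝ, (mat Y 1).det = 0 ∨ kp Y 1 o ≠ 0 := by
  have hm1 : MeasurableSet {Y : Fin n → Fin d → ℝ | (mat Y 1).det = 0} :=
    ((hM n d).1 1) (measurableSet_singleton (0 : ℝ))
  have hm2 : MeasurableSet {Y : Fin n → Fin d → ℝ | kp Y 1 o ≠ 0} :=
    ((hM n d).2.1 1 o) (measurableSet_singleton (0 : ℝ)).compl
  have hmeas : MeasurableSet {Y : Fin n → Fin d → ℝ | (mat Y 1).det = 0 ∨ kp Y 1 o ≠ 0} :=
    hm1.union hm2
  let L : (Fin d → ℝ) →ₗ[ℝ] (Fin n → Fin d → ℝ) := LinearMap.single ℝ (fun _ => Fin d → ℝ) l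
  refine ae_mem_of_ae_add_linearMap_mem L volume volume hmeas ?_
  intro Y
  have hmat : ∀ x : Fin d → ℝ, mat (Y + Pi.single l x) 1 = mat Y 1 := by
    intro x
    ext a c
    rw [mat_one_apply hCO hdn, mat_one_apply hCO hdn]
    have : (⟨a.val, a.isLt.trans hdn⟩ : Fin n) ≠ l := by
      intro h
      have := congrArg Fin.val h
      have := a.isLt
      simp only at *
      omega
    rw [Pi.add_apply, Pi.single_eq_of_ne this, add_zero]
  by_cases h0 : (mat Y 1).det = 0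
  · refine Filter.Eventually.of_forall fun x => ?_
    left
    change (mat (Y + Pi.single l x) 1).det = 0
    rw [hmat, h0]
  · have hν := nu_ne_zero hd Y h0
    filter_upwards [ae_hyper (nu Y 1) hν (1 - ∑ c, nu Y 1 c * yv Y o c) (-e) (neg_ne_zero.2 he)]
      with x hx
    suffices hgoal : (mat (Y + L x) 1).det = 0 ∨ kp (Y + L x) 1 o ≠ 0 from hgoal
    have hL : L x = Pi.single l x := rfl
    rw [hL]
    right
    intro h1
    apply hx
    have hnu : nu (Y + Pi.single l x) 1 = nu Y 1 :=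
      congrArg (fun A : Matrix (Fin d) (Fin d) ℝ => A⁻¹ *ᵥ fun _ => (1 : ℝ)) (hmat x)
    have hkp : kp (Y + Pi.single l x) 1 o =
        (1 - ∑ c, nu (Y + Pi.single l x) 1 c * yv (Y + Pi.single l x) o c) / (n + 1) := rfl
    rw [hkp, hnu, hyo] at h1
    have hn1 : ((n : ℝ) + 1) ≠ 0 := by positivity
    rcases div_eq_zero_iff.1 h1 with h1 | h1
    · have h2 : ∑ c, nu Y 1 c * (yv Y o + e • x) c =
          ∑ c, nu Y 1 c * yv Y o c + e * ∑ c, nu Y 1 c * x c := by
        rw [Finset.mul_sum, ← Finset.sum_add_distrib]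
        refine Finset.sum_congr rfl fun c _ => ?_
        change nu Y 1 c * (yv Y o c + e * x c) = _
        ring
      rw [h2] at h1
      linarith
    · exact absurd h1 hn1

theorem ae_kp' (hCO : CO) (hM : MEAS) (hd : 1 ≤ d) (hdn : d < n) (o : Fin (n + 1))
    (ho : d ≤ o.val) :
    ∀ᵐ Y : Fin n → Fin d → ℝ, (mat Y 1).det = 0 ∨ kp Y 1 o ≠ 0 := by
  induction o using Fin.lastCases with
  | last =>
    refine ae_kp hCO hM hd hdn (Fin.last n) ⟨d, hdn⟩ le_rfl (-1) (by norm_num) ?_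
    intro Y x
    obtain ⟨-, -, -, -, -, -, -, h1, -⟩ := hCO n d Y
    obtain ⟨-, -, -, -, -, -, -, h2, -⟩ := hCO n d (Y + Pi.single ⟨d, hdn⟩ x)
    rw [h1, h2]
    have h3 : ∑ l, (Y + (Pi.single (⟨d, hdn⟩ : Fin n) x : Fin n → Fin d → ℝ)) l =
        ∑ l, Y l + x := by
      simp only [Pi.add_apply]
      rw [Finset.sum_add_distrib, Finset.sum_pi_single']
      simp
    rw [h3]
    module
  | cast l =>
    refine ae_kp hCO hM hd hdn l.castSucc l ho 1 one_ne_zero ?_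
    intro Y x
    obtain ⟨-, -, -, -, -, -, h1, -⟩ := hCO n d Y
    obtain ⟨-, -, -, -, -, -, h2, -⟩ := hCO n d (Y + Pi.single l x)
    rw [h1, h2, Pi.add_apply, Pi.single_eq_same, one_smul]

theorem gGPAE (hCO : CO) (hSYMY : SYMY) (hMEAS : MEAS) : GPAE := by
  intro n d hd hdn
  have hbase : ∀ᵐ Y : Fin n → Fin d → ℝ, (mat Y 1).det ≠ 0 ∧
      ∀ o : Fin (n + 1), d ≤ o.val → kp Y 1 o ≠ 0 := by
    have h1 : ∀ᵐ Y : Fin n → Fin d → ℝ, ∀ o : Fin (n + 1), d ≤ o.val →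
        ((mat Y 1).det = 0 ∨ kp Y 1 o ≠ 0) := by
      rw [ae_all_iff]
      intro o
      by_cases ho : d ≤ o.val
      · filter_upwards [ae_kp' hCO hMEAS hd hdn o ho] with Y hY _
        exact hY
      · exact Filter.Eventually.of_forall fun Y h => absurd h ho
    filter_upwards [ae_det hCO hMEAS hdn, h1] with Y h2 h3
    refine ⟨h2, fun o ho => ?_⟩
    rcases h3 o ho with h4 | h4
    · exact absurd h4 h2
    · exact h4
  have hall : ∀ π : Equiv.Perm (Fin (n + 1)), ∀ᵐ Y : Fin n → Fin d → ℝ, (mat Y π).det ≠ 0 ∧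
      ∀ o : Fin (n + 1), d ≤ (π.symm o).val → kp Y π o ≠ 0 := by
    intro π
    obtain ⟨L, -, hL, hY⟩ := hSYMY n d π
    have h1 := hL.quasiMeasurePreserving.ae hbase
    filter_upwards [h1] with Y h2
    obtain ⟨-, hm, -, hk, -⟩ := hY Y
    refine ⟨?_, fun o ho => ?_⟩
    · have := h2.1
      rwa [hm 1, mul_one] at this
    · have := h2.2 (π.symm o) ho
      rwa [hk 1, mul_one, Equiv.apply_symm_apply] at this
  have := ae_all_iff.2 hall
  filter_upwards [this] with Y hY π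
  exact hY π

end Pool.Agent.Helper9.LQ
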